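import Pool.Agent.V11146.MK.Rough

/-!
# Residue classes of consecutive rough numbers

`S_z` is the set of the `n` without a prime factor `≤ z` (so it contains all the primes `p > z`). For every prime
`q` and `ε > 0` there are `K` and `z₀` such that for all `z ≥ z₀`, in ALL intervals `(Z, Z + Y]` with
`Y ≥ z ^ K`, the share, among the elements of `S_z` in the interval, of the `n ≡ a (mod q)` whose successor in
`S_z` is `≡ b (mod q)`, is `1 / φ(q) ^ 2` up to `ε`, for all nonzero residues `a`, `b`.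
-/

set_option autoImplicit false

open Finset

namespace Pool.Agent.Results.MP_a3b3a7_nt.RoughNeighbours

/-- `n` has no prime factor `≤ z`. -/
def Rough (z n : ℕ) : Prop := ∀ p : ℕ, p.Prime → p ≤ z → ¬ p ∣ n

/-- `n'` is the successor of `n` in `S`. -/
def Succ (S : ℕ → Prop) (n n' : ℕ) : Prop := S n' ∧ n < n' ∧ ∀ m, n < m → m < n' → ¬ S m

open Classical in
/-- The elements of `S_z` in `(Z, Z + Y]`. -/
noncomputable def total (z Z Y : ℕ) : ℕ := ((Ioc Z (Z + Y)).filter (Rough z)).card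

open Classical in
/-- The elements `n ≡ a (mod q)` of `S_z` in `(Z, Z + Y]` whose successor in `S_z` is `≡ b (mod q)`. -/
noncomputable def pairs (z q a b Z Y : ℕ) : ℕ :=
  ((Ioc Z (Z + Y)).filter (fun n => Rough z n ∧ n ≡ a [MOD q] ∧ ∃ n', Succ (Rough z) n n' ∧ n' ≡ b [MOD q])).card

open Pool.Agent.V11146.MK in
lemma runs_one (z q a b n : ℕ) (ha : a < q) (hb : b < q) :
    Runs (Pool.Agent.V11146.MK.Rough z) (fun n => n % q) 1 (fun i => if i = 0 then a else b) n ↔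
      (Rough z n ∧ n ≡ a [MOD q] ∧ ∃ n', Succ (Rough z) n n' ∧ n' ≡ b [MOD q]) := by
  rw [runs_iff]
  simp only [if_true, lst, one_ne_zero, if_false]
  unfold PatK PatK Nat.ModEq Succ
  rw [Nat.mod_eq_of_lt ha, Nat.mod_eq_of_lt hb]
  constructor
  · rintro ⟨h1, h2, g', h3, h4, h5, h6, _⟩
    exact ⟨h1, h2, g', ⟨h4, h3, h5⟩, h6⟩
  · rintro ⟨h1, h2, g', ⟨h4, h3, h5⟩, h6⟩
    exact ⟨h1, h2, g', h3, h4, h5, h6, trivial⟩

open Classical in
/-- **Residue classes of consecutive rough numbers.** -/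
theorem result :
    (∀ z p : ℕ, p.Prime → z < p → Rough z p) ∧
    ∀ q : ℕ, q.Prime → ∀ ε : ℝ, 0 < ε → ∃ K z₀ : ℕ, ∀ z : ℕ, z₀ ≤ z → ∀ Z Y : ℕ, z ^ K ≤ Y →
      0 < total z Z Y ∧ ∀ a b : ℕ, a ∈ Ico 1 q → b ∈ Ico 1 q →
        |(pairs z q a b Z Y : ℝ) / total z Z Y - 1 / (Nat.totient q : ℝ) ^ 2| ≤ ε := by
  refine ⟨?_, ?_⟩
  · intro z p hp hz r hr hrz h
    have := (Nat.prime_dvd_prime_iff_eq hr hp).1 h
    omega
  intro q hq ε hε
  obtain ⟨K, z₀, h⟩ := Pool.Agent.V11146.MK.rough_pat q 1 hq ε hε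
  refine ⟨K, z₀, ?_⟩
  intro z hz Z Y hY
  obtain ⟨h1, h2⟩ := h z hz Z Y hY
  refine ⟨h1, ?_⟩
  intro a b ha hb
  have h3 := h2 (fun i => if i = 0 then a else b) (by
    intro i _
    split_ifs
    · exact ha
    · exact hb)
  rw [mem_Ico] at ha hb
  have h8 : pairs z q a b Z Y = ((Ioc Z (Z + Y)).filter (fun g => Pool.Agent.V11146.MK.Runs
      (Pool.Agent.V11146.MK.Rough z) (fun n => n % q) 1 (fun i => if i = 0 then a else b) g)).card := by
    unfold pairs
    congr 1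
    apply Finset.filter_congr
    intro g _
    exact (runs_one z q a b g ha.2 hb.2).symm
  rw [← h8] at h3
  change |(pairs z q a b Z Y : ℝ) - (total z Z Y : ℝ) / ((q : ℝ) - 1) ^ (1 + 1)| ≤ ε * (total z Z Y : ℝ) at h3
  have h4 : (0 : ℝ) < total z Z Y := by
    have : 0 < total z Z Y := h1
    exact_mod_cast this
  have h5 : ((Nat.totient q : ℕ) : ℝ) = (q : ℝ) - 1 := by
    rw [Nat.totient_prime hq, Nat.cast_sub hq.one_lt.le, Nat.cast_one]
  rw [h5]
  have h6 : (pairs z q a b Z Y : ℝ) / total z Z Y - 1 / ((q : ℝ) - 1) ^ 2 =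
      ((pairs z q a b Z Y : ℝ) - (total z Z Y : ℝ) / ((q : ℝ) - 1) ^ (1 + 1)) / total z Z Y := by
    field_simp
  rw [h6, abs_div, abs_of_pos h4, div_le_iff₀ h4]
  exact h3

end Pool.Agent.Results.MP_a3b3a7_nt.RoughNeighbours
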